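import Pool.Agent.R166.SW.Window
import Pool.Agent.R904.CU.KMain

set_option autoImplicit false

/-!
# The multiplicative group times the complement of an elementary arrangement
-/

open CategoryTheory CategoryTheory.Limits AlgebraicGeometry MvPolynomial
open Pool.Agent.R904.CU Pool.Agent.R904.EL Pool.Agent.R166.SW

namespace Pool.Agent.R166.SK

section rings

/-- ring homomorphisms from a localization of a polynomial ring over `ℤ` -/
theorem loc_ext {τ : Type} {b : MvPolynomial τ ℤ} {T : Type} [CommRing T]
    {f g : Localization.Away b →+* T}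
    (h : ∀ i, f (algebraMap (MvPolynomial τ ℤ) _ (X i)) = g (algebraMap (MvPolynomial τ ℤ) _ (X i))) :
    f = g := by
  refine IsLocalization.ringHom_ext (Submonoid.powers b) ?_
  refine MvPolynomial.ringHom_ext (fun n => ?_) fun i => ?_
  · rw [eq_intCast C n, map_intCast, map_intCast]
  · exact h i

open LaurentPolynomial in
theorem laurent_ext {T : Type} [CommRing T] {f g : ℤ[T;T⁻¹] →+* T}
    (h : f (LaurentPolynomial.T 1) = g (LaurentPolynomial.T 1)) : f = g := by
  refine IsLocalization.ringHom_ext (Submonoid.powers (Polynomial.X : Polynomial ℤ)) ?_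
  refine Polynomial.ringHom_ext (fun n => ?_) ?_
  · rw [eq_intCast Polynomial.C n, map_intCast, map_intCast]
  · have h1 : algebraMap (Polynomial ℤ) ℤ[T;T⁻¹] Polynomial.X = LaurentPolynomial.T 1 := by
      rw [LaurentPolynomial.algebraMap_eq_toLaurent, Polynomial.toLaurent_X]
    rw [RingHom.comp_apply, RingHom.comp_apply, h1, h]

variable {σ : Type} (a : MvPolynomial σ ℤ)

theorem isUnit_upMul : IsUnit (algebraMap (MvPolynomial (Option σ) ℤ)
    (Localization.Away (upMul a)) (up a)) ∧ IsUnit (algebraMap (MvPolynomial (Option σ) ℤ)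
    (Localization.Away (upMul a)) (X none - C 1)) := by
  have h1 : IsUnit (algebraMap (MvPolynomial (Option σ) ℤ) (Localization.Away (upMul a))
      (upMul a)) := IsLocalization.Away.algebraMap_isUnit (upMul a)
  unfold upMul at h1
  rw [map_mul] at h1
  exact ⟨isUnit_of_mul_isUnit_left h1, isUnit_of_mul_isUnit_right h1⟩

noncomputable def inl : Localization.Away a →+* Localization.Away (upMul a) :=
  IsLocalization.Away.lift a (g := (algebraMap (MvPolynomial (Option σ) ℤ)
    (Localization.Away (upMul a))).comp (rename some : MvPolynomial σ ℤ →ₐ[ℤ]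
      MvPolynomial (Option σ) ℤ).toRingHom) (by
        change IsUnit (algebraMap _ _ (rename some a))
        exact (isUnit_upMul a).1)

theorem inl_X (i : σ) : inl a (algebraMap (MvPolynomial σ ℤ) _ (X i)) =
    algebraMap (MvPolynomial (Option σ) ℤ) _ (X (some i)) := by
  have h1 : inl a (algebraMap (MvPolynomial σ ℤ) _ (X i)) =
      algebraMap _ _ (rename some (X i : MvPolynomial σ ℤ)) := IsLocalization.Away.lift_eq _ _ _
  rw [h1, rename_X]

noncomputable def inr : LaurentPolynomial ℤ →+* Localization.Away (upMul a) :=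
  LaurentPolynomial.eval₂ (Int.castRingHom _) (isUnit_upMul a).2.unit

theorem inr_T : inr a (LaurentPolynomial.T 1) =
    algebraMap (MvPolynomial (Option σ) ℤ) _ (X none - C 1) := by
  unfold inr
  have h1 := LaurentPolynomial.eval₂_T (Int.castRingHom (Localization.Away (upMul a)))
    (isUnit_upMul a).2.unit 1
  rw [h1, zpow_one, IsUnit.unit_spec]

variable {T : Type} [CommRing T] (α : Localization.Away a →+* T) (β : LaurentPolynomial ℤ →+* T)

noncomputable def descPoly : MvPolynomial (Option σ) ℤ →+* T :=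
  eval₂Hom (Int.castRingHom T) fun o => o.elim (1 + β (LaurentPolynomial.T 1))
    fun i => α (algebraMap (MvPolynomial σ ℤ) _ (X i))

theorem descPoly_some (i : σ) : descPoly a α β (X (some i)) =
    α (algebraMap (MvPolynomial σ ℤ) _ (X i)) := by
  unfold descPoly
  rw [eval₂Hom_X']
  rfl

theorem descPoly_none : descPoly a α β (X none) = 1 + β (LaurentPolynomial.T 1) := by
  unfold descPoly
  rw [eval₂Hom_X']
  rfl

theorem descPoly_up (p : MvPolynomial σ ℤ) : descPoly a α β (rename some p) =
    α (algebraMap (MvPolynomial σ ℤ) _ p) := by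
  have h1 : (descPoly a α β).comp (rename some : MvPolynomial σ ℤ →ₐ[ℤ]
      MvPolynomial (Option σ) ℤ).toRingHom = α.comp (algebraMap (MvPolynomial σ ℤ) _) := by
    refine MvPolynomial.ringHom_ext (fun n => ?_) fun i => ?_
    · rw [eq_intCast C n, map_intCast, map_intCast]
    · change descPoly a α β (rename some (X i)) = _
      rw [rename_X, descPoly_some]
      rfl
  exact RingHom.congr_fun h1 p

theorem isUnit_descPoly : IsUnit (descPoly a α β (upMul a)) := by
  unfold upMul
  rw [map_mul, map_sub, descPoly_none, C_1, map_one, add_sub_cancel_left]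
  unfold up
  rw [descPoly_up]
  refine IsUnit.mul ((IsLocalization.Away.algebraMap_isUnit a).map α) ?_
  exact (LaurentPolynomial.isUnit_T 1).map β

noncomputable def desc : Localization.Away (upMul a) →+* T :=
  IsLocalization.Away.lift (upMul a) (g := descPoly a α β) (isUnit_descPoly a α β)

theorem desc_apply (p : MvPolynomial (Option σ) ℤ) : desc a α β (algebraMap _ _ p) =
    descPoly a α β p := IsLocalization.Away.lift_eq _ _ _

theorem desc_inl : (desc a α β).comp (inl a) = α := by
  refine loc_ext fun i => ?_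
  rw [RingHom.comp_apply, inl_X, desc_apply, descPoly_some]

theorem desc_inr : (desc a α β).comp (inr a) = β := by
  refine laurent_ext ?_
  rw [RingHom.comp_apply, inr_T, desc_apply, map_sub, descPoly_none, C_1, map_one,
    add_sub_cancel_left]

theorem desc_unique (γ : Localization.Away (upMul a) →+* T) (h1 : γ.comp (inl a) = α)
    (h2 : γ.comp (inr a) = β) : γ = desc a α β := by
  refine loc_ext fun o => ?_
  rw [desc_apply]
  cases o with
  | some i =>
    rw [descPoly_some, ← h1, RingHom.comp_apply, inl_X]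
  | none =>
    rw [descPoly_none, ← h2, RingHom.comp_apply, inr_T, map_sub, map_sub, C_1, map_one, map_one]
    ring

theorem isPushout : IsPushout (CommRingCat.ofHom (algebraMap ℤ (Localization.Away a)))
    (CommRingCat.ofHom (algebraMap ℤ (LaurentPolynomial ℤ))) (CommRingCat.ofHom (inl a))
    (CommRingCat.ofHom (inr a)) := by
  refine ⟨⟨CommRingCat.hom_ext (RingHom.ext_int _ _)⟩, ⟨PushoutCocone.IsColimit.mk _
    (fun s => CommRingCat.ofHom (desc a s.inl.hom s.inr.hom)) ?_ ?_ ?_⟩⟩
  · intro s
    exact CommRingCat.hom_ext (desc_inl a s.inl.hom s.inr.hom)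
  · intro s
    exact CommRingCat.hom_ext (desc_inr a s.inl.hom s.inr.hom)
  · intro s γ h1 h2
    refine CommRingCat.hom_ext (desc_unique a s.inl.hom s.inr.hom γ.hom ?_ ?_)
    · exact congrArg CommRingCat.Hom.hom h1
    · exact congrArg CommRingCat.Hom.hom h2

/-- the complement of the larger arrangement is the product with the multiplicative group -/
theorem isoGm : Nonempty (compl (upMul a) ≅ pullback (complHom a) gm) :=
  ⟨(isPullback_SpecMap_of_isPushout _ _ _ _ (isPushout a)).isoPullback⟩

end rings

section K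

variable (K : KPrime)

/-- all K-groups are finitely generated -/
def AllFin (X : Scheme.{0}) : Prop := ∀ n, AddGroup.FG (K.G n X)

theorem glue : Glue (FinType ℤ) (fun X _ => AllFin K X) where
  empty Z f hZ n := by
    have h := K.empty n Z hZ
    exact AddGroup.fg_of_finite
  iso f g e _ h n := fg_equiv (K.iso n _ _ e.symm) (h n)
  glue X Z U f i j hf hi hj hr hZ hU n := by
    obtain ⟨a, b, d, h1, h2, h3, -⟩ := K.localization X Z U f i j hf hi hj hr
    exact fg_exact (a n) (b n) (h1 n) (hZ n) (hU n)
  sub X Z U f i j hf hi hj hr hX hU n := by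
    obtain ⟨a, b, d, h1, h2, h3, -⟩ := K.localization X Z U f i j hf hi hj hr
    exact fg_exact (d n) (a n) (h3 n) (hU (n + 1)) (hX n)

theorem closure_one : Subring.closure ({1} : Set ℤ) = ⊤ := Pool.Agent.R166.SZ.closure_one

theorem finType_compl {τ : Type} [Fintype τ] (b : MvPolynomial τ ℤ) :
    FinType ℤ (compl b) (complHom b) := (cls_finType ℤ).affine _ inferInstance

theorem all_iff : (∀ n, K.AllFG n) ↔
    ∀ (σ : Type) [Fintype σ], ∀ a ∈ elemProds ({1} : Set ℤ) σ, AllFin K (compl a) := by
  constructor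
  · intro h σ _ a _ n
    exact h n _ (complHom a) (finType_compl a)
  · intro h n X f hf
    exact p_all (cls_finType ℤ) (glue K) (K := {1}) rfl closure_one (fun σ _ a ha => h σ a ha) X f
      hf n

theorem fg_step {σ : Type} [Fintype σ] (a : MvPolynomial σ ℤ) (n : ℕ)
    (h : AddGroup.FG (K.G (n + 1) (compl (upMul a)))) : AddGroup.FG (K.G n (compl a)) := by
  obtain ⟨e0⟩ := isoGm a
  have h1 := fg_equiv (K.iso (n + 1) _ _ e0) h
  obtain ⟨e⟩ := K.fundamental n (compl a) (complHom a) (finType_compl a)
  exact AddGroup.fg_of_surjective (f := (AddMonoidHom.snd (K.G (n + 1) (compl a))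
    (K.G n (compl a))).comp e.toAddMonoidHom) (fun y => ⟨e.symm (0, y), by simp⟩)

theorem fg_steps (k : ℕ) : ∀ {σ : Type} [Fintype σ] (a : MvPolynomial σ ℤ),
    a ∈ elemProds ({1} : Set ℤ) σ → ∀ n : ℕ,
    (∀ (τ : Type) [Fintype τ], Fintype.card τ = Fintype.card σ + k →
      ∀ b ∈ elemProds ({1} : Set ℤ) τ, AddGroup.FG (K.G (n + k) (compl b))) →
    AddGroup.FG (K.G n (compl a)) := by
  induction k with
  | zero =>
    intro σ _ a ha n h
    exact h σ (by simp) a ha
  | succ k ih =>
    intro σ _ a ha n h
    have hc : Fintype.card (Option σ) = Fintype.card σ + 1 := Fintype.card_option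
    refine fg_step K a n (ih (upMul a) (upMul_mem a ha) (n + 1) fun τ _ hτ b hb => ?_)
    have h1 := h τ (by omega) b hb
    rwa [show n + (k + 1) = n + 1 + k by ring] at h1

/-- The K-groups `K'_n(U)` are finitely generated for the complements `U` of elementary arrangements
for the pairs `(dim U, n)` in `R`; here `dim U = N + 1` is the dimension of the affine space over `ℤ`. -/
def ArrFin (R : Set (ℕ × ℕ)) : Prop := ∀ (σ : Type) [Fintype σ], ∀ a ∈ elemProds ({1} : Set ℤ) σ,
  ∀ n : ℕ, (Fintype.card σ + 1, n) ∈ R → AddGroup.FG (K.G n (compl a))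

theorem arrFin_iff {R : Set (ℕ × ℕ)} (hR : ∀ d n, ∃ k, (d + k, n + k) ∈ R) :
    ArrFin K R ↔ ∀ n, K.AllFG n := by
  rw [all_iff]
  refine ⟨fun h σ _ a ha n => ?_, fun h σ _ a ha n _ => h σ a ha n⟩
  obtain ⟨k, hk⟩ := hR (Fintype.card σ + 1) n
  refine fg_steps K k a ha n fun τ _ hτ b hb => h τ b hb _ ?_
  rwa [hτ, show Fintype.card σ + k + 1 = Fintype.card σ + 1 + k by ring]

theorem bass_iff : K.Bass ↔ ∀ n, K.AllFG n := by
  refine ⟨fun h n => ?_, fun h X f hf _ n => h n X f hf⟩
  obtain ⟨N, hN, hc⟩ := K.bass_iff.1 h (n + 1)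
  obtain ⟨d, rfl⟩ := Nat.exists_eq_add_of_le hN
  have h1 : K.AllFG (n + d) := K.allFG_of_cubicFG _ (by
    have : n + 1 + d = n + d + 1 := by omega
    rwa [this] at hc)
  exact K.allFG_mono (Nat.le_add_right n d) h1

end K

end Pool.Agent.R166.SK
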